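import Pool.Agent.V1180.Yuk3
import Pool.Agent.V1180.Rad3

set_option autoImplicit false

/-! MP_30ce6b_an: a positive solution of `Δψ = (|ψ|^{2p-2} - |x|^{-1}) ψ` for every `p > 1`. -/

open Set Filter Topology MeasureTheory Metric
open scoped ContDiff ENNReal

namespace Pool.Agent.Results.MP_30ce6b_an.PositiveSolution

open Pool.Agent.V1180.Bub Pool.Agent.V1180.Rad3 Pool.Agent.V1180.Yuk

/-- `G` is the distributional gradient of `ψ` on `R^3` -/
def IsWeakGradient (ψ : Vec 3 → ℝ) (G : Vec 3 → Vec 3) : Prop :=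
  ∀ η : Vec 3 → ℝ, Test η → ∀ i, ∫ x, ψ x * pd i η x = - ∫ x, G x i * η x

/-- `ψ` belongs to the class `M`, with distributional gradient `G` -/
def MemM (ψ : Vec 3 → ℝ) (G : Vec 3 → Vec 3) : Prop :=
  LocallyIntegrable ψ ∧ AEStronglyMeasurable G volume ∧
    LocallyIntegrable (fun x => ‖G x‖ ^ 2) ∧ IsWeakGradient ψ G

/-- `ψ` is a solution of `(E_p)` -/
def IsSolution (p : ℝ) (ψ : Vec 3 → ℝ) : Prop :=
  ∃ G : Vec 3 → Vec 3, MemM ψ G ∧ LocallyIntegrable (fun x => |ψ x| ^ (2 * p - 1)) ∧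
    ∀ η : Vec 3 → ℝ, Test η →
      Integrable (fun x => fderiv ℝ η x (G x)) ∧
      Integrable (fun x => η x * ((|ψ x| ^ (2 * p - 2) - ‖x‖⁻¹) * ψ x)) ∧
      (∫ x, fderiv ℝ η x (G x)) + ∫ x, η x * ((|ψ x| ^ (2 * p - 2) - ‖x‖⁻¹) * ψ x) = 0

variable {p : ℝ}

/-- numerator `r φ' - φ` -/
noncomputable def NN (p r : ℝ) : ℝ := r * ph1 p r - ph p r

noncomputable def w0 (p t : ℝ) : ℝ := prf p (√t)

noncomputable def w1 (p t : ℝ) : ℝ := NN p (√t) / (2 * √t ^ 3)

noncomputable def w2 (p t : ℝ) : ℝ := ph2 p (√t) / (4 * √t ^ 3) - 3 * NN p (√t) / (4 * √t ^ 5)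

theorem d_sqrt {t : ℝ} (ht : 0 < t) : HasDerivAt (fun t => √t) (1 / (2 * √t)) t :=
  Real.hasDerivAt_sqrt ht.ne'

theorem d_NN (hp : 1 < p) {t : ℝ} (ht : 0 < t) :
    HasDerivAt (fun t => NN p (√t)) (ph2 p (√t) / 2) t := by
  have hs : 0 < √t := Real.sqrt_pos.2 ht
  have h1 : HasDerivAt (NN p) (√t * ph2 p (√t)) (√t) := by
    have := ((hasDerivAt_id (√t)).mul (ph1_deriv hp hs)).sub (ph_deriv hp hs)
    refine this.congr_deriv ?_
    simp only [id]; ring
  have h2 := h1.comp t (d_sqrt ht)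
  refine h2.congr_deriv ?_
  field_simp

theorem d_w0 (hp : 1 < p) {t : ℝ} (ht : 0 < t) : HasDerivAt (w0 p) (w1 p t) t := by
  have hs : 0 < √t := Real.sqrt_pos.2 ht
  have h1 : HasDerivAt (fun t => ph p (√t) / √t) (w1 p t) t := by
    have h2 := ((ph_deriv hp hs).comp t (d_sqrt ht)).div (d_sqrt ht) hs.ne'
    refine h2.congr_deriv ?_
    simp only [Function.comp, w1, NN]
    field_simp
  refine h1.congr_of_eventuallyEq ?_
  filter_upwards [lt_mem_nhds ht] with u hu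
  exact prf_eq hp (Real.sqrt_pos.2 hu)

theorem d_w1 (hp : 1 < p) {t : ℝ} (ht : 0 < t) : HasDerivAt (w1 p) (w2 p t) t := by
  have hs : 0 < √t := Real.sqrt_pos.2 ht
  have h2 := (d_NN hp ht).div (((d_sqrt ht).pow 3).const_mul 2)
    (show (2 * √t ^ 3 : ℝ) ≠ 0 by positivity)
  refine h2.congr_deriv ?_
  simp only [w2]
  norm_num
  field_simp
  ring

theorem c_w2 (hp : 1 < p) {t : ℝ} (ht : 0 < t) : ContinuousAt (w2 p) t := by
  have hs : 0 < √t := Real.sqrt_pos.2 ht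
  have c0 : ContinuousAt (fun t : ℝ => √t) t := Real.continuous_sqrt.continuousAt
  have c1 : ContinuousAt (fun t => ph2 p (√t)) t := ContinuousAt.comp (ph2_contAt hp hs) c0
  have c2 : ContinuousAt (fun t => NN p (√t)) t := (d_NN hp ht).continuousAt
  exact (c1.div (continuousAt_const.mul (c0.pow 3))
    (show (4 * √t ^ 3 : ℝ) ≠ 0 by positivity)).sub
    ((continuousAt_const.mul c2).div (continuousAt_const.mul (c0.pow 5))
      (show (4 * √t ^ 5 : ℝ) ≠ 0 by positivity))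

theorem prof_w (hp : 1 < p) : Prof (w0 p) (w1 p) (w2 p) := by
  refine ⟨fun t ht => d_w0 hp ht, fun t ht => d_w1 hp ht, fun t ht => c_w2 hp ht, fun T hT => ?_⟩
  have hC := cC_pos p
  have hT0 : 0 < √T := Real.sqrt_pos.2 hT
  have hD : 0 ≤ cD p (√T) := by unfold cD; positivity
  refine ⟨2 * cC p + cD p (√T), by positivity, fun t ht htT => ?_⟩
  have hs : 0 < √t := Real.sqrt_pos.2 ht
  have hst : √t ≤ √T := Real.sqrt_le_sqrt htT
  have htt : √t ^ 2 = t := Real.sq_sqrt ht.le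
  obtain ⟨b1, b2⟩ := prf_bounds hp hs
  have b3 := ph2_bound hp hs hst
  have b4 : |NN p (√t)| ≤ cD p (√T) * √t ^ 2 := quot_bound hp hs hst
  refine ⟨?_, ?_, ?_⟩
  · unfold w0
    rw [abs_of_pos b1]; linarith
  · unfold w1
    rw [abs_div, abs_of_pos (by positivity : 0 < 2 * √t ^ 3), div_le_div_iff₀ (by positivity) hs]
    calc |NN p √t| * √t ≤ (cD p (√T) * √t ^ 2) * √t := by gcongr
      _ ≤ (2 * cC p + cD p (√T)) * (2 * √t ^ 3) := by
          have : 0 ≤ √t ^ 3 := by positivity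
          have : 0 ≤ cC p * √t ^ 3 := by positivity
          have : 0 ≤ cD p (√T) * √t ^ 3 := by positivity
          nlinarith
  · unfold w2
    have e1 : t * √t = √t ^ 3 := by rw [pow_succ, htt]
    rw [e1]
    have h1 : |ph2 p √t / (4 * √t ^ 3)| ≤ cD p (√T) / (4 * √t ^ 3) := by
      rw [abs_div, abs_of_pos (by positivity : 0 < 4 * √t ^ 3)]
      gcongr
    have h2 : |3 * NN p √t / (4 * √t ^ 5)| ≤ 3 * cD p (√T) / (4 * √t ^ 3) := by
      rw [abs_div, abs_of_pos (by positivity : 0 < 4 * √t ^ 5), abs_mul,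
        abs_of_pos (by norm_num : (0:ℝ) < 3), div_le_div_iff₀ (by positivity) (by positivity)]
      calc 3 * |NN p √t| * (4 * √t ^ 3) ≤ 3 * (cD p (√T) * √t ^ 2) * (4 * √t ^ 3) := by gcongr
        _ = _ := by ring
    calc |ph2 p √t / (4 * √t ^ 3) - 3 * NN p √t / (4 * √t ^ 5)|
        ≤ |ph2 p √t / (4 * √t ^ 3)| + |3 * NN p √t / (4 * √t ^ 5)| := abs_sub _ _
      _ ≤ cD p (√T) / (4 * √t ^ 3) + 3 * cD p (√T) / (4 * √t ^ 3) := add_le_add h1 h2
      _ = cD p (√T) / √t ^ 3 := by field_simp; ring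
      _ ≤ _ := by gcongr; linarith

/-- the radial equation -/
theorem radial_eq {x : Vec 3} (hx : x ≠ 0) :
    6 * w1 p (‖x‖ ^ 2) + 4 * ‖x‖ ^ 2 * w2 p (‖x‖ ^ 2) =
      prf p ‖x‖ ^ (2 * p - 1) - ‖x‖⁻¹ * prf p ‖x‖ := by
  have hn : 0 < ‖x‖ := norm_pos_iff.2 hx
  unfold w1 w2
  rw [Real.sqrt_sq hn.le]
  unfold ph2
  field_simp
  ring

/-- the solution -/
noncomputable def psi (p : ℝ) (x : Vec 3) : ℝ := if x = 0 then ph1 p 0 else prf p ‖x‖

/-- its gradient -/
noncomputable def GG (p : ℝ) (x : Vec 3) : Vec 3 := (2 * w1 p (‖x‖ ^ 2)) • x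

theorem psi_pos (hp : 1 < p) (x : Vec 3) : 0 < psi p x := by
  unfold psi
  split_ifs with hx
  · exact ph1_zero_pos hp
  · exact (prf_bounds hp (norm_pos_iff.2 hx)).1

theorem psi_continuous (hp : 1 < p) : Continuous (psi p) := by
  rw [continuous_iff_continuousAt]
  intro x
  by_cases hx : x = 0
  · subst hx
    rw [continuousAt_iff_punctured_nhds]
    have h1 : Tendsto (fun x : Vec 3 => ‖x‖) (𝓝[≠] 0) (𝓝[>] 0) := tendsto_norm_nhdsNE_zero
    have h2 := (prf_lim hp).comp h1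
    have h3 : psi p 0 = ph1 p 0 := by simp [psi]
    rw [h3]
    refine h2.congr' ?_
    filter_upwards [self_mem_nhdsWithin] with y hy
    have : y ≠ 0 := hy
    simp [psi, this]
  · have h1 : ContinuousAt (fun x : Vec 3 => prf p ‖x‖) x :=
      ContinuousAt.comp (prf_contAt hp (norm_pos_iff.2 hx)) continuous_norm.continuousAt
    refine h1.congr ?_
    filter_upwards [isOpen_ne.mem_nhds hx] with y hy
    have : y ≠ 0 := hy
    simp [psi, this]

theorem GG_apply (x : Vec 3) (i : Fin 3) : GG p x i = 2 * x i * w1 p (‖x‖ ^ 2) := by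
  simp [GG]; ring

theorem GG_meas (hp : 1 < p) : AEStronglyMeasurable (GG p) volume := by
  have h1 : ContinuousOn (GG p) {0}ᶜ := by
    intro x hx
    have hx' : x ≠ 0 := hx
    have hpos : 0 < ‖x‖ ^ 2 := by have := norm_pos_iff.2 hx'; positivity
    have h0 : ContinuousAt (fun x : Vec 3 => ‖x‖ ^ 2) x := by fun_prop
    have h2 : ContinuousAt (fun x : Vec 3 => w1 p (‖x‖ ^ 2)) x :=
      ContinuousAt.comp (g := w1 p) (f := fun x : Vec 3 => ‖x‖ ^ 2)
        (d_w1 hp hpos).continuousAt h0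
    exact ((continuousAt_const.mul h2).smul continuousAt_id).continuousWithinAt
  have h3 := h1.aestronglyMeasurable (μ := volume) (measurableSet_singleton (0 : Vec 3)).compl
  rwa [restrict_compl_singleton] at h3

theorem GG_bound (hp : 1 < p) (R : ℝ) : ∃ C, ∀ x : Vec 3, ‖x‖ ≤ R → ‖GG p x‖ ≤ C := by
  obtain ⟨D, hD, hb⟩ := (prof_w hp).bd (R ^ 2 + 1) (by positivity)
  refine ⟨2 * D, fun x hx => ?_⟩
  by_cases hx0 : x = 0
  · subst hx0
    simp [GG]
    exact hD
  · have hn : 0 < ‖x‖ := norm_pos_iff.2 hx0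
    have hpos : 0 < ‖x‖ ^ 2 := by positivity
    have hle : ‖x‖ ^ 2 ≤ R ^ 2 + 1 := by
      have : ‖x‖ ^ 2 ≤ R ^ 2 := by gcongr
      linarith
    have h1 := (hb _ hpos hle).2.1
    rw [Real.sqrt_sq hn.le] at h1
    unfold GG
    rw [norm_smul, Real.norm_eq_abs, abs_mul, abs_of_pos (by norm_num : (0:ℝ) < 2)]
    calc 2 * |w1 p (‖x‖ ^ 2)| * ‖x‖ ≤ 2 * (D / ‖x‖) * ‖x‖ := by gcongr
      _ = 2 * D := by field_simp

theorem GG_sq_locInt (hp : 1 < p) : LocallyIntegrable (fun x => ‖GG p x‖ ^ 2) := by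
  rw [locallyIntegrable_iff]
  intro K hK
  obtain ⟨R, hR⟩ := hK.isBounded.subset_ball 0
  obtain ⟨C, hC⟩ := GG_bound hp R
  refine IntegrableOn.of_bound hK.measure_lt_top ((GG_meas hp).norm.pow 2).restrict (C ^ 2) ?_
  refine (ae_restrict_iff' hK.measurableSet).2 (ae_of_all _ fun x hx => ?_)
  have hx' : ‖x‖ ≤ R := by
    have := hR hx
    rw [mem_ball_zero_iff] at this
    exact this.le
  rw [Real.norm_of_nonneg (by positivity)]
  have := hC x hx'
  gcongr

theorem fderiv_eq_sum {η : Vec 3 → ℝ} (x v : Vec 3) :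
    fderiv ℝ η x v = ∑ i, v i * pd i η x := by
  have h1 : v = ∑ i, v i • EuclideanSpace.single i (1:ℝ) := by
    have := (EuclideanSpace.basisFun (Fin 3) ℝ).sum_repr v
    simpa using this.symm
  conv_lhs => rw [h1]
  rw [map_sum]
  refine Finset.sum_congr rfl fun i _ => ?_
  rw [map_smul, smul_eq_mul]
  rfl

theorem psi_ae : ∀ᵐ x : Vec 3, psi p x = w0 p (‖x‖ ^ 2) := by
  filter_upwards [ae_ne_zero] with x hx
  unfold psi w0
  rw [if_neg hx, Real.sqrt_sq (norm_nonneg x)]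

theorem weakGrad (hp : 1 < p) : IsWeakGradient (psi p) (GG p) := by
  intro η hη i
  have h1 := id1 (prof_w hp) hη i
  have h2 : ∫ x, psi p x * pd i η x = ∫ x : Vec 3, w0 p (‖x‖ ^ 2) * pd i η x := by
    apply integral_congr_ae
    filter_upwards [psi_ae] with x hx
    rw [hx]
  rw [h2, h1]
  congr 2
  ext x
  rw [GG_apply]

theorem int_Gpd (hp : 1 < p) {η : Vec 3 → ℝ} (hη : Test η) (i : Fin 3) :
    Integrable (fun x => GG p x i * pd i η x) := by
  obtain ⟨R, hR⟩ := (pd_comp hη i).isBounded.subset_ball 0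
  obtain ⟨C, hC⟩ := GG_bound hp R
  have hi : Integrable (pd i η) :=
    (pd_cont hη i).integrable_of_hasCompactSupport (pd_comp hη i)
  refine (hi.norm.const_mul C).mono' ?_ (ae_of_all _ fun x => ?_)
  · have h1 : AEStronglyMeasurable (fun x => GG p x i) volume :=
      (EuclideanSpace.proj i : Vec 3 →L[ℝ] ℝ).continuous.comp_aestronglyMeasurable (GG_meas hp)
    exact h1.mul (pd_cont hη i).aestronglyMeasurable
  · rw [norm_mul]
    by_cases hx : pd i η x = 0
    · simp [hx]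
    · have h2 : ‖GG p x i‖ ≤ ‖GG p x‖ := PiLp.norm_apply_le _ i
      exact mul_le_mul_of_nonneg_right (h2.trans (hC x (supp_norm hR hx))) (norm_nonneg _)

theorem psi_pow (hp : 1 < p) (x : Vec 3) :
    |psi p x| ^ (2 * p - 2) * psi p x = psi p x ^ (2 * p - 1) := by
  have h := psi_pos hp x
  rw [abs_of_pos h, ← Real.rpow_add_one h.ne']
  congr 1
  ring

theorem isSolution (hp : 1 < p) : IsSolution p (psi p) := by
  have hc := psi_continuous hp
  have hpos := psi_pos hp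
  refine ⟨GG p, ⟨hc.locallyIntegrable, GG_meas hp, GG_sq_locInt hp, weakGrad hp⟩, ?_, ?_⟩
  · have : Continuous (fun x => |psi p x| ^ (2 * p - 1)) :=
      hc.abs.rpow_const fun x => Or.inr (by linarith)
    exact this.locallyIntegrable
  · intro η hη
    have e1 : ∀ x, fderiv ℝ η x (GG p x) = ∑ i, GG p x i * pd i η x :=
      fun x => fderiv_eq_sum x _
    have hcp : Continuous (fun x => psi p x ^ (2 * p - 1)) :=
      hc.rpow_const fun x => Or.inr (by linarith)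
    have i1 : Integrable (fun x => η x * psi p x ^ (2 * p - 1)) :=
      (hη.1.continuous.mul hcp).integrable_of_hasCompactSupport hη.2.mul_right
    have i2 : Integrable (fun x : Vec 3 => ‖x‖⁻¹ * (η x * psi p x)) :=
      inv_norm_mul (hη.1.continuous.mul hc) hη.2.mul_right
    have e2 : ∀ x, η x * ((|psi p x| ^ (2 * p - 2) - ‖x‖⁻¹) * psi p x) =
        η x * psi p x ^ (2 * p - 1) - ‖x‖⁻¹ * (η x * psi p x) := by
      intro x
      rw [← psi_pow hp x]
      ring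
    simp_rw [e1, e2]
    refine ⟨integrable_finsetSum _ fun i _ => int_Gpd hp hη i, i1.sub i2, ?_⟩
    rw [integral_finsetSum _ fun i _ => int_Gpd hp hη i]
    have e3 : ∀ i, ∫ x, GG p x i * pd i η x =
        ∫ x : Vec 3, (2 * x i * w1 p (‖x‖ ^ 2)) * pd i η x := by
      intro i
      congr 1
      ext x
      rw [GG_apply]
    simp_rw [e3]
    rw [id2 (prof_w hp) hη]
    have e4 : ∫ x : Vec 3, (6 * w1 p (‖x‖ ^ 2) + 4 * ‖x‖ ^ 2 * w2 p (‖x‖ ^ 2)) * η x =
        ∫ x, (η x * psi p x ^ (2 * p - 1) - ‖x‖⁻¹ * (η x * psi p x)) := by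
      apply integral_congr_ae
      filter_upwards [ae_ne_zero] with x hx
      rw [radial_eq hx]
      unfold psi
      rw [if_neg hx]
      ring
    rw [e4]
    ring

theorem result (p : ℝ) (hp : 1 < p) :
    ∃ ψ : Vec 3 → ℝ, Continuous ψ ∧ (∀ x, 0 < ψ x) ∧ IsSolution p ψ :=
  ⟨psi p, psi_continuous hp, psi_pos hp, isSolution hp⟩

end Pool.Agent.Results.MP_30ce6b_an.PositiveSolution
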